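import Pool.Agent.Helper25_CON.PDLem

/-!
Squad CON, module E_N2
-/

noncomputable section

namespace Pool.Agent.CON.H90

open Pool.Agent.CON

theorem e_n2 (hval : E_VAL) : E_N2 := by
  intro M _ b C s hb hC
  refine ⟨?_, ?_, ?_⟩
  · intro α hα z hz h
    have h1 := hC.norm α hα
    obtain ⟨_, m, hm⟩ := hval M b C s hb hC z hz
    rw [h, hb.zsmul_left, hb.zsmul_right, hm] at h1
    have h2 : s * (4 * m - 1) = 0 := by linarith
    rcases mul_eq_zero.mp h2 with h3 | h3
    · exact hC.pos.ne' h3
    · omega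
  · intro α hα β hβ hab z hz h
    have h1 := hC.norm α hα
    have h1' := hC.norm β hβ
    obtain ⟨_, m, hm⟩ := hval M b C s hb hC z hz
    have h4 : b (α + β) (α + β) = 4 * s := by
      rw [hb.add_left, hb.add_right, hb.add_right, hb.symm β α, hab, h1, h1']; ring
    rw [h, hb.zsmul_left, hb.zsmul_right, hm] at h4
    have h2 : s * (2 * m - 1) = 0 := by linarith
    rcases mul_eq_zero.mp h2 with h3 | h3
    · exact hC.pos.ne' h3
    · omega
  · rintro x - ⟨y, -, hy⟩ z - h
    apply hy
    rw [h, hb.zsmul_left]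
    exact dvd_mul_right _ _

end Pool.Agent.CON.H90
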